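import Pool.Agent.H44.EHN.Stmts

/-! Row BAD of the board ehn. -/

set_option autoImplicit false

open Classical

namespace EHN

theorem bad_thm (h1 : W2Stmt) : BADStmt := by
  intro d D q Y hD hd hq h3 hnp hY hG
  have hqo : Odd q := hq.odd_of_ne_two (by omega)
  have hno : Odd (D * q) := hD.mul hqo
  have hD1 : 1 ≤ D := hD.pos
  have hn3 : 3 ≤ D * q := le_trans h3 (Nat.le_mul_of_pos_left q hD1)
  have hdn : d ∣ D * q := hd.mul_right q
  by_cases hE : EHS (D * q)
  · refine ⟨D * q, ?_, hY, Dvd.intro_left D rfl⟩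
    unfold S
    rw [Finset.mem_filter, Finset.mem_Icc]
    exact ⟨⟨by omega, hY.le⟩, hno, hdn, hE⟩
  · unfold Good at hG
    push Not at hG
    obtain ⟨p, hp, hpd, hall⟩ := hG
    have hne : p ≠ 2 * (D * q) + 1 := fun h => hnp (h ▸ hp)
    obtain ⟨m, hm1, hm2, hm3, hm4, hm5, hm6⟩ := h1 (D * q) p hno hn3 hp hpd hne hE
    have hmS : m ∈ S d (D * q).factorial := by
      unfold S
      rw [Finset.mem_filter, Finset.mem_Icc]
      exact ⟨⟨by omega, hm4⟩, hm5, hdn.trans hm2, hm6⟩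
    have hlt := hall m hmS hm1
    refine ⟨m, ?_, by omega, (Dvd.intro_left D rfl : q ∣ D * q).trans hm2⟩
    unfold S
    rw [Finset.mem_filter, Finset.mem_Icc]
    exact ⟨⟨by omega, by omega⟩, hm5, hdn.trans hm2, hm6⟩

end EHN
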